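import Pool.Agent.H200.HK.Sob

/-!
# Vanishing to infinite order at density points
-/

set_option autoImplicit false

noncomputable section

namespace Pool.Agent.H200.HK

open MeasureTheory Filter Topology Set Function
open Pool.Agent.H998.HK
open scoped ENNReal NNReal RealInnerProductSpace

theorem Test.smooth {ζ : E3 → ℝ} (h : Test ζ) : ContDiff ℝ ((⊤ : ℕ∞) : WithTop ℕ∞) ζ := h.1

theorem pd_cont {ζ : E3 → ℝ} (h : Test ζ) (i : Fin 3) : Continuous (pd i ζ) :=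
  (h.1.continuous_fderiv (by simp)).clm_apply continuous_const

theorem pd_cs {ζ : E3 → ℝ} (h : Test ζ) (i : Fin 3) : HasCompactSupport (pd i ζ) :=
  (h.2.fderiv_apply ℝ _)

theorem pd_mul {φ ζ : E3 → ℝ} (hφ : Test φ) (hζ : Test ζ) (i : Fin 3) (x : E3) :
    pd i (fun y => φ y * ζ y) x = pd i φ x * ζ x + φ x * pd i ζ x := by
  unfold pd
  have h1 : DifferentiableAt ℝ φ x := (hφ.1.differentiable (by simp)) x
  have h2 : DifferentiableAt ℝ ζ x := (hζ.1.differentiable (by simp)) x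
  have := (h1.hasFDerivAt.mul h2.hasFDerivAt).fderiv
  rw [show (fun y => φ y * ζ y) = φ * ζ from rfl, this]
  simp
  ring

theorem Test.mul {φ ζ : E3 → ℝ} (hφ : Test φ) (hζ : Test ζ) : Test (fun y => φ y * ζ y) :=
  ⟨hφ.1.mul hζ.1, hφ.2.mul_right⟩

section

variable {H : Type} [NormedAddCommGroup H] [NormedSpace ℝ H]

theorem wg_mul {u : E3 → H} {D : Fin 3 → E3 → H} (hu : LocallyIntegrable u volume)
    (hD : ∀ i, LocallyIntegrable (D i) volume) (hg : WeakGrad u D) {ζ : E3 → ℝ} (hζ : Test ζ) :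
    WeakGrad (fun x => ζ x • u x) (fun i x => ζ x • D i x + pd i ζ x • u x) := by
  intro i φ hφ
  have h := hg i _ (Test.mul hφ hζ)
  have i1 : Integrable (fun x => (pd i φ x * ζ x) • u x) volume :=
    hu.integrable_smul_left_of_hasCompactSupport ((pd_cont hφ i).mul hζ.1.continuous)
      ((pd_cs hφ i).mul_right)
  have i2 : Integrable (fun x => (φ x * pd i ζ x) • u x) volume :=
    hu.integrable_smul_left_of_hasCompactSupport (hφ.1.continuous.mul (pd_cont hζ i))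
      (hφ.2.mul_right)
  have i3 : Integrable (fun x => (φ x * ζ x) • D i x) volume :=
    (hD i).integrable_smul_left_of_hasCompactSupport (hφ.1.continuous.mul hζ.1.continuous)
      (hφ.2.mul_right)
  have e1 : ∫ x, pd i (fun y => φ y * ζ y) x • u x =
      (∫ x, (pd i φ x * ζ x) • u x) + ∫ x, (φ x * pd i ζ x) • u x := by
    rw [← integral_add i1 i2]
    refine integral_congr_ae (ae_of_all _ fun x => ?_)
    simp only [pd_mul hφ hζ, add_smul]
  have e2 : ∫ x, φ x • (ζ x • D i x + pd i ζ x • u x) =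
      (∫ x, (φ x * ζ x) • D i x) + ∫ x, (φ x * pd i ζ x) • u x := by
    rw [← integral_add i3 i2]
    refine integral_congr_ae (ae_of_all _ fun x => ?_)
    simp only [smul_add, mul_smul]
  rw [e1] at h
  have h' : ∫ x, (pd i φ x * ζ x) • u x = -(∫ x, (φ x * ζ x) • D i x) -
      ∫ x, (φ x * pd i ζ x) • u x := by
    rw [← h]; abel
  show ∫ x, pd i φ x • (ζ x • u x) = -∫ x, φ x • (ζ x • D i x + pd i ζ x • u x)
  rw [e2]
  simp only [← mul_smul]
  rw [h']
  abel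

end

/-- The weighted `L²` norm of the gradient. -/
def PP {H : Type} [NormedAddCommGroup H] (ζ : E3 → ℝ) (D : Fin 3 → E3 → H) : ℝ≥0∞ :=
  ∫⁻ x, ENNReal.ofReal (ζ x ^ 2 * ∑ i, ‖D i x‖ ^ 2)

/-- The weighted `L²` norm of the function. -/
def QQ {H : Type} [NormedAddCommGroup H] (ζ : E3 → ℝ) (χ : E3 → H) : ℝ≥0∞ :=
  ∫⁻ x, ENNReal.ofReal ((∑ i, pd i ζ x ^ 2 + ζ x ^ 2) * ‖χ x‖ ^ 2)

section

variable {H : Type} [NormedAddCommGroup H]

theorem PP_meas {D : Fin 3 → E3 → H} (hD : ∀ i, MemLp (D i) 2 volume) {ζ : E3 → ℝ}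
    (hζ : Test ζ) :
    AEMeasurable (fun x => ENNReal.ofReal (ζ x ^ 2 * ∑ i, ‖D i x‖ ^ 2)) volume := by
  refine ENNReal.measurable_ofReal.comp_aemeasurable ?_
  refine (hζ.1.continuous.measurable.pow_const 2).aemeasurable.mul ?_
  exact Finset.aemeasurable_fun_sum _ fun i _ => (hD i).aestronglyMeasurable.norm.aemeasurable.pow_const 2

theorem QQ_meas {χ : E3 → H} (hχ : MemLp χ 2 volume) {ζ : E3 → ℝ}
    (hζ : Test ζ) :
    AEMeasurable (fun x => ENNReal.ofReal ((∑ i, pd i ζ x ^ 2 + ζ x ^ 2) * ‖χ x‖ ^ 2)) volume := by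
  refine ENNReal.measurable_ofReal.comp_aemeasurable ?_
  refine AEMeasurable.mul ?_ (hχ.aestronglyMeasurable.norm.aemeasurable.pow_const 2)
  refine Measurable.aemeasurable ?_
  refine Measurable.add ?_ (hζ.1.continuous.measurable.pow_const 2)
  exact Finset.measurable_fun_sum _ fun i _ => (pd_cont hζ i).measurable.pow_const 2

theorem enorm_sq (a : H) : ‖a‖ₑ ^ 2 = ENNReal.ofReal (‖a‖ ^ 2) := by
  rw [← ofReal_norm, ENNReal.ofReal_pow (norm_nonneg _)]

end

section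

variable {H : Type} [NormedAddCommGroup H] [InnerProductSpace ℝ H] [CompleteSpace H]

omit [CompleteSpace H] in
theorem smul_memLp {χ : E3 → H} (hχ : MemLp χ 2 volume) {p : E3 → ℝ} (hp : Continuous p)
    (hc : HasCompactSupport p) : MemLp (fun x => p x • χ x) 2 volume :=
  MemLp.smul (p := ∞) (q := 2) (r := 2) hχ (hp.memLp_top_of_hasCompactSupport hc volume)

theorem sob_zeta {χ : E3 → H} {D : Fin 3 → E3 → H} (hχ : MemLp χ 2 volume)
    (hD : ∀ i, MemLp (D i) 2 volume) (hg : WeakGrad χ D) {ζ : E3 → ℝ} (hζ : Test ζ) :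
    eLpNorm (fun x => ζ x • χ x) 6 volume ^ 2 ≤ (18 * CS ^ 2) * (PP ζ D + QQ ζ χ) := by
  have m1 : MemLp (fun x => ζ x • χ x) 2 volume := smul_memLp hχ hζ.1.continuous hζ.2
  have m2 : ∀ i, MemLp (fun x => ζ x • D i x + pd i ζ x • χ x) 2 volume := fun i =>
    (smul_memLp (hD i) hζ.1.continuous hζ.2).add (smul_memLp hχ (pd_cont hζ i) (pd_cs hζ i))
  have hw := wg_mul (hχ.locallyIntegrable (by norm_num))
    (fun i => (hD i).locallyIntegrable (by norm_num)) hg hζ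
  have hcs : HasCompactSupport fun x => ζ x • χ x := hζ.2.smul_right
  have h1 := sob_weak m1 m2 hw hcs
  set T : ℝ≥0∞ := 2 * (PP ζ D + QQ ζ χ) with hT
  have h2 : ∀ i, eLpNorm (fun x => ζ x • D i x + pd i ζ x • χ x) 2 volume ≤ T ^ (1 / 2 : ℝ) := by
    intro i
    have h3 : eLpNorm (fun x => ζ x • D i x + pd i ζ x • χ x) 2 volume ^ 2 ≤ T := by
      rw [two_sq, hT, mul_add, PP, QQ, ← lintegral_const_mul' _ _ (by norm_num),
        ← lintegral_const_mul' _ _ (by norm_num),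
        ← lintegral_add_left' ((PP_meas hD hζ).const_mul _)]
      refine lintegral_mono fun x => ?_
      rw [enorm_sq]
      have a1 : 0 ≤ ζ x ^ 2 * ∑ i, ‖D i x‖ ^ 2 := by positivity
      have a2 : 0 ≤ (∑ i, pd i ζ x ^ 2 + ζ x ^ 2) * ‖χ x‖ ^ 2 := by positivity
      rw [show (2 : ℝ≥0∞) = ENNReal.ofReal 2 by simp, ← ENNReal.ofReal_mul (by norm_num),
        ← ENNReal.ofReal_mul (by norm_num), ← ENNReal.ofReal_add (by positivity) (by positivity)]
      apply ENNReal.ofReal_le_ofReal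
      have b1 : ‖ζ x • D i x + pd i ζ x • χ x‖ ≤ |ζ x| * ‖D i x‖ + |pd i ζ x| * ‖χ x‖ := by
        refine (norm_add_le _ _).trans (le_of_eq ?_)
        rw [norm_smul, norm_smul, Real.norm_eq_abs, Real.norm_eq_abs]
      have b2 : ‖D i x‖ ^ 2 ≤ ∑ i, ‖D i x‖ ^ 2 :=
        Finset.single_le_sum (f := fun i => ‖D i x‖ ^ 2) (fun _ _ => sq_nonneg _)
          (Finset.mem_univ i)
      have b3 : pd i ζ x ^ 2 ≤ ∑ i, pd i ζ x ^ 2 :=
        Finset.single_le_sum (f := fun i => pd i ζ x ^ 2) (fun _ _ => sq_nonneg _)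
          (Finset.mem_univ i)
      calc ‖ζ x • D i x + pd i ζ x • χ x‖ ^ 2
          ≤ (|ζ x| * ‖D i x‖ + |pd i ζ x| * ‖χ x‖) ^ 2 := by gcongr
        _ ≤ 2 * (|ζ x| * ‖D i x‖) ^ 2 + 2 * (|pd i ζ x| * ‖χ x‖) ^ 2 := by
            nlinarith [sq_nonneg (|ζ x| * ‖D i x‖ - |pd i ζ x| * ‖χ x‖)]
        _ = 2 * (ζ x ^ 2 * ‖D i x‖ ^ 2) + 2 * (pd i ζ x ^ 2 * ‖χ x‖ ^ 2) := by
            rw [mul_pow, mul_pow, sq_abs, sq_abs]
        _ ≤ 2 * (ζ x ^ 2 * ∑ i, ‖D i x‖ ^ 2) +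
            2 * ((∑ i, pd i ζ x ^ 2 + ζ x ^ 2) * ‖χ x‖ ^ 2) := by
            gcongr
            nlinarith [sq_nonneg (ζ x)]
    calc eLpNorm (fun x => ζ x • D i x + pd i ζ x • χ x) 2 volume
        = (eLpNorm (fun x => ζ x • D i x + pd i ζ x • χ x) 2 volume ^ 2) ^ (1 / 2 : ℝ) := by
          rw [← ENNReal.rpow_natCast, ← ENNReal.rpow_mul]
          norm_num
      _ ≤ T ^ (1 / 2 : ℝ) := by gcongr
  have h4 : eLpNorm (fun x => ζ x • χ x) 6 volume ≤ CS * (3 * T ^ (1 / 2 : ℝ)) := by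
    refine h1.trans ?_
    gcongr
    calc ∑ i, eLpNorm (fun x => ζ x • D i x + pd i ζ x • χ x) 2 volume
        ≤ ∑ _i : Fin 3, T ^ (1 / 2 : ℝ) := Finset.sum_le_sum fun i _ => h2 i
      _ = 3 * T ^ (1 / 2 : ℝ) := by simp
  calc eLpNorm (fun x => ζ x • χ x) 6 volume ^ 2 ≤ (CS * (3 * T ^ (1 / 2 : ℝ))) ^ 2 := by gcongr
    _ = CS ^ 2 * (9 * T) := by
        rw [mul_pow, mul_pow, ← ENNReal.rpow_natCast (T ^ (1 / 2 : ℝ)) 2, ← ENNReal.rpow_mul]
        norm_num
    _ = _ := by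
        rw [hT]
        ring

omit [CompleteSpace H] in
/-- Hölder. -/
theorem hoelder {χ : E3 → H} (hχ : MemLp χ 2 volume) {ζ : E3 → ℝ} (hζ : Test ζ) {V : E3 → ℝ}
    (hV : Measurable V) (x₀ : E3) (r : ℝ) (hs : ∀ x, x ∉ Metric.closedBall x₀ r → ζ x = 0) :
    ∫⁻ x, ENNReal.ofReal (ζ x ^ 2 * |V x| * ‖χ x‖ ^ 2) ≤
      (∫⁻ y in Metric.closedBall x₀ r, ENNReal.ofReal (|V y| ^ (3 / 2 : ℝ))) ^ (2 / 3 : ℝ) *
        eLpNorm (fun x => ζ x • χ x) 6 volume ^ 2 := by
  have m1 : MemLp (fun x => ζ x • χ x) 2 volume := smul_memLp hχ hζ.1.continuous hζ.2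
  have h0 : ∫⁻ x, ENNReal.ofReal (ζ x ^ 2 * |V x| * ‖χ x‖ ^ 2) =
      ∫⁻ x in Metric.closedBall x₀ r, ENNReal.ofReal |V x| * ‖ζ x • χ x‖ₑ ^ 2 := by
    rw [← lintegral_add_compl _ (Metric.isClosed_closedBall (x := x₀) (ε := r)).measurableSet]
    have : ∫⁻ x in (Metric.closedBall x₀ r)ᶜ, ENNReal.ofReal (ζ x ^ 2 * |V x| * ‖χ x‖ ^ 2) = 0 := by
      rw [setLIntegral_congr_fun (g := fun _ => 0)
        (Metric.isClosed_closedBall (x := x₀) (ε := r)).measurableSet.compl]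
      · simp
      · intro x hx
        simp only [hs x hx]
        simp
    rw [this, add_zero]
    refine lintegral_congr fun x => ?_
    rw [enorm_sq, norm_smul, mul_pow, Real.norm_eq_abs, sq_abs,
      ← ENNReal.ofReal_mul (abs_nonneg _)]
    congr 1
    ring
  rw [h0]
  have h1 := ENNReal.lintegral_mul_le_Lp_mul_Lq (volume.restrict (Metric.closedBall x₀ r))
    (p := 3 / 2) (q := 3) (by constructor <;> norm_num)
    (f := fun x => ENNReal.ofReal |V x|) (g := fun x => ‖ζ x • χ x‖ₑ ^ 2)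
    (ENNReal.measurable_ofReal.comp hV.abs).aemeasurable
    ((m1.aestronglyMeasurable.enorm.pow_const 2).restrict)
  refine h1.trans ?_
  have e1 : (∫⁻ x in Metric.closedBall x₀ r, ENNReal.ofReal |V x| ^ (3 / 2 : ℝ)) ^
      (1 / (3 / 2 : ℝ)) = (∫⁻ y in Metric.closedBall x₀ r,
        ENNReal.ofReal (|V y| ^ (3 / 2 : ℝ))) ^ (2 / 3 : ℝ) := by
    congr 1
    · refine lintegral_congr fun x => ?_
      rw [ENNReal.ofReal_rpow_of_nonneg (abs_nonneg _) (by norm_num)]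
    · norm_num
  rw [e1]
  gcongr
  calc (∫⁻ x in Metric.closedBall x₀ r, (‖ζ x • χ x‖ₑ ^ 2) ^ (3 : ℝ)) ^ (1 / 3 : ℝ)
      ≤ (∫⁻ x, (‖ζ x • χ x‖ₑ ^ 2) ^ (3 : ℝ)) ^ (1 / 3 : ℝ) := by
        gcongr
        exact Measure.restrict_le_self
    _ = eLpNorm (fun x => ζ x • χ x) 6 volume ^ 2 := by
        have := eLpNorm_nnreal_pow_eq_lintegral (μ := volume) (f := fun x => ζ x • χ x) (p := 6)
          (by norm_num)
        have h6 : ∫⁻ x, (‖ζ x • χ x‖ₑ ^ 2) ^ (3 : ℝ) =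
            eLpNorm (fun x => ζ x • χ x) 6 volume ^ (6 : ℝ) := by
          have : ((6 : ℝ≥0) : ℝ≥0∞) = 6 := by norm_num
          rw [← this]
          rw [show (6 : ℝ) = ((6 : ℝ≥0) : ℝ) by norm_num, eLpNorm_nnreal_pow_eq_lintegral (by norm_num)]
          refine lintegral_congr fun x => ?_
          rw [← ENNReal.rpow_natCast, ← ENNReal.rpow_mul]
          norm_num
        rw [h6, ← ENNReal.rpow_mul, ← ENNReal.rpow_natCast]
        norm_num

/-- The constants. -/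
def cS : ℝ := 18 * (CS : ℝ) ^ 2
def epsA (A : ℝ) : ℝ := 1 / (2 * (A * cS + 1))
def KA (A : ℝ) : ℝ := (2 * A + 2) * (cS + 1)

theorem cS_nonneg : 0 ≤ cS := by unfold cS; positivity

theorem cacc {A : ℝ} (hA : 0 < A) {χ : E3 → H} {D : Fin 3 → E3 → H} (hχ : MemLp χ 2 volume)
    (hD : ∀ i, MemLp (D i) 2 volume) (hg : WeakGrad χ D) {ζ : E3 → ℝ} (hζ : Test ζ) {V : E3 → ℝ}
    (hV : Measurable V) (x₀ : E3) (r : ℝ) (hs : ∀ x, x ∉ Metric.closedBall x₀ r → ζ x = 0)
    (hε : (∫⁻ y in Metric.closedBall x₀ r, ENNReal.ofReal (|V y| ^ (3 / 2 : ℝ))) ^ (2 / 3 : ℝ) ≤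
      ENNReal.ofReal (epsA A))
    (hen : ∫⁻ x, ENNReal.ofReal (ζ x ^ 2 * ∑ i, ‖D i x‖ ^ 2) ≤
    ENNReal.ofReal A * ∫⁻ x, ENNReal.ofReal
      ((∑ i, pd i ζ x ^ 2 + ζ x ^ 2 * (1 + |V x|)) * ‖χ x‖ ^ 2)) :
    PP ζ D ≤ ENNReal.ofReal (KA A) * QQ ζ χ ∧
    eLpNorm (fun x => ζ x • χ x) 6 volume ^ 2 ≤ ENNReal.ofReal (KA A) * QQ ζ χ := by
  have hc := cS_nonneg
  have hK : 0 < KA A := by unfold KA; positivity
  have hS := sob_zeta hχ hD hg hζ
  have hcS : (18 * (CS : ℝ≥0∞) ^ 2) = ENNReal.ofReal cS := by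
    unfold cS
    rw [ENNReal.ofReal_mul (by norm_num), ENNReal.ofReal_pow (by positivity),
      ENNReal.ofReal_coe_nnreal]
    norm_num
  rw [hcS] at hS
  have hW := hoelder hχ hζ hV x₀ r hs
  set S : ℝ≥0∞ := eLpNorm (fun x => ζ x • χ x) 6 volume ^ 2 with hSdef
  set W : ℝ≥0∞ := ∫⁻ x, ENNReal.ofReal (ζ x ^ 2 * |V x| * ‖χ x‖ ^ 2) with hWdef
  have hP : PP ζ D ≤ ENNReal.ofReal A * (QQ ζ χ + W) := by
    refine hen.trans (le_of_eq ?_)
    congr 1
    rw [QQ, hWdef, ← lintegral_add_left' (QQ_meas hχ hζ)]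
    refine lintegral_congr fun x => ?_
    rw [← ENNReal.ofReal_add (by positivity) (by positivity)]
    congr 1
    ring
  have hW2 : W ≤ ENNReal.ofReal (epsA A) * (ENNReal.ofReal cS * (PP ζ D + QQ ζ χ)) := by
    refine hW.trans ?_
    gcongr
  have hPfin : PP ζ D ≠ ∞ := by
    have h1 : PP ζ D ≤ ∑ i, eLpNorm (fun x => ζ x • D i x) 2 volume ^ 2 := by
      simp_rw [two_sq]
      rw [← lintegral_finsetSum' _ fun i _ =>
        ((smul_memLp (hD i) hζ.1.continuous hζ.2).aestronglyMeasurable.enorm.pow_const 2), PP]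
      refine lintegral_mono fun x => le_of_eq ?_
      rw [Finset.mul_sum, ENNReal.ofReal_sum_of_nonneg (fun i _ => by positivity)]
      refine Finset.sum_congr rfl fun i _ => ?_
      rw [enorm_sq, norm_smul, mul_pow, Real.norm_eq_abs, sq_abs]
    refine ne_top_of_le_ne_top ?_ h1
    refine ENNReal.sum_ne_top.2 fun i _ => ENNReal.pow_ne_top ?_
    exact (smul_memLp (hD i) hζ.1.continuous hζ.2).2.ne
  by_cases hQ : QQ ζ χ = ∞
  · rw [hQ, ENNReal.mul_top (by simpa using hK)]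
    exact ⟨le_top, le_top⟩
  have hep : 0 < epsA A := by unfold epsA; positivity
  have hAec : A * (epsA A * cS) ≤ 1 / 2 := by
    unfold epsA
    rw [show A * (1 / (2 * (A * cS + 1)) * cS) = (A * cS) / (A * cS + 1) * (1 / 2) by
      field_simp]
    have : (A * cS) / (A * cS + 1) ≤ 1 := by
      rw [div_le_one (by positivity)]
      linarith
    nlinarith
  set p : ℝ := (PP ζ D).toReal with hp
  set q : ℝ := (QQ ζ χ).toReal with hq
  have hp0 : 0 ≤ p := ENNReal.toReal_nonneg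
  have hq0 : 0 ≤ q := ENNReal.toReal_nonneg
  have eP : PP ζ D = ENNReal.ofReal p := (ENNReal.ofReal_toReal hPfin).symm
  have eQ : QQ ζ χ = ENNReal.ofReal q := (ENNReal.ofReal_toReal hQ).symm
  have hpq : p ≤ (2 * A + 1) * q := by
    have h1 : PP ζ D ≤ ENNReal.ofReal (A * (q + epsA A * (cS * (p + q)))) := by
      rw [ENNReal.ofReal_mul hA.le, ENNReal.ofReal_add hq0 (by positivity),
        ENNReal.ofReal_mul hep.le, ENNReal.ofReal_mul hc, ENNReal.ofReal_add hp0 hq0, ← eP, ← eQ]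
      exact hP.trans (by gcongr)
    rw [eP, ENNReal.ofReal_le_ofReal_iff (by positivity)] at h1
    nlinarith
  constructor
  · rw [eP, eQ, ← ENNReal.ofReal_mul hK.le]
    apply ENNReal.ofReal_le_ofReal
    refine hpq.trans ?_
    unfold KA
    gcongr
    nlinarith
  · refine hS.trans ?_
    rw [eP, eQ, ← ENNReal.ofReal_add hp0 hq0, ← ENNReal.ofReal_mul hc, ← ENNReal.ofReal_mul hK.le]
    apply ENNReal.ofReal_le_ofReal
    unfold KA
    nlinarith [mul_nonneg hA.le hq0]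

end

/-! ### Cutoff functions -/

/-- The bump. -/
def bmp : ContDiffBump (0 : E3) := ⟨1, 2, by norm_num, by norm_num⟩

/-- The cutoff functions. -/
def cut (x₀ : E3) (r : ℝ) (x : E3) : ℝ := bmp (r⁻¹ • (x - x₀))

theorem bmp_bound : ∃ M : ℝ, 0 < M ∧ ∀ x i, |fderiv ℝ bmp x (EuclideanSpace.single i (1 : ℝ))| ≤ M := by
  have h1 : ContDiff ℝ 1 (bmp : E3 → ℝ) := bmp.contDiff
  obtain ⟨M, hM⟩ := (bmp.hasCompactSupport.fderiv (𝕜 := ℝ)).exists_bound_of_continuous
    (h1.continuous_fderiv one_ne_zero)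
  refine ⟨|M| + 1, by positivity, fun x i => ?_⟩
  calc |fderiv ℝ bmp x (EuclideanSpace.single i (1 : ℝ))|
      ≤ ‖fderiv ℝ bmp x‖ * ‖(EuclideanSpace.single i (1 : ℝ) : E3)‖ :=
        (fderiv ℝ bmp x).le_opNorm _
    _ ≤ |M| + 1 := by
        have : ‖(EuclideanSpace.single i (1 : ℝ) : E3)‖ = 1 := by simp
        rw [this, mul_one]
        linarith [hM x, le_abs_self M]

theorem cut_out (x₀ : E3) {r : ℝ} (hr : 0 < r) (x : E3) (hx : x ∉ Metric.closedBall x₀ (2 * r)) :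
    cut x₀ r x = 0 := by
  apply bmp.zero_of_le_dist
  rw [Metric.mem_closedBall, not_le, dist_eq_norm] at hx
  rw [dist_zero_right, norm_smul, norm_inv, Real.norm_eq_abs, abs_of_pos hr]
  show 2 ≤ r⁻¹ * ‖x - x₀‖
  rw [← div_eq_inv_mul, le_div_iff₀ hr]
  exact hx.le

theorem cut_in (x₀ : E3) {r : ℝ} (hr : 0 < r) (x : E3) (hx : x ∈ Metric.closedBall x₀ r) :
    cut x₀ r x = 1 := by
  apply bmp.one_of_mem_closedBall
  rw [Metric.mem_closedBall, dist_eq_norm] at hx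
  rw [Metric.mem_closedBall, dist_zero_right, norm_smul, norm_inv, Real.norm_eq_abs,
    abs_of_pos hr]
  show r⁻¹ * ‖x - x₀‖ ≤ 1
  rw [← div_eq_inv_mul, div_le_one hr]
  exact hx

theorem cut_test (x₀ : E3) {r : ℝ} (hr : 0 < r) : Test (cut x₀ r) := by
  refine ⟨?_, HasCompactSupport.intro (isCompact_closedBall x₀ (2 * r)) (cut_out x₀ hr)⟩
  have h : ContDiff ℝ ((⊤ : ℕ∞) : WithTop ℕ∞) (fun x : E3 => r⁻¹ • (x - x₀)) := by fun_prop
  exact bmp.contDiff.comp h

theorem cut_pd (x₀ : E3) (r : ℝ) (i : Fin 3) (x : E3) :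
    pd i (cut x₀ r) x = r⁻¹ * fderiv ℝ bmp (r⁻¹ • (x - x₀)) (EuclideanSpace.single i (1 : ℝ)) := by
  have h1 : ContDiff ℝ 1 (bmp : E3 → ℝ) := bmp.contDiff
  have h2 := (h1.differentiable one_ne_zero (r⁻¹ • (x - x₀))).hasFDerivAt
  have h3 : HasFDerivAt (fun x : E3 => r⁻¹ • (x - x₀)) (r⁻¹ • ContinuousLinearMap.id ℝ E3) x :=
    ((hasFDerivAt_id x).sub_const x₀).const_smul r⁻¹
  have h4 := (h2.comp x h3).fderiv
  unfold pd
  rw [show cut x₀ r = (bmp : E3 → ℝ) ∘ (fun x : E3 => r⁻¹ • (x - x₀)) from rfl, h4]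
  simp

theorem cut_pd_out (x₀ : E3) {r : ℝ} (hr : 0 < r) (i : Fin 3) (x : E3)
    (hx : x ∉ Metric.closedBall x₀ (2 * r)) : pd i (cut x₀ r) x = 0 := by
  have h1 : tsupport (cut x₀ r) ⊆ Metric.closedBall x₀ (2 * r) := by
    refine closure_minimal (fun y hy => ?_) Metric.isClosed_closedBall
    by_contra hc
    exact hy (cut_out x₀ hr y hc)
  have h2 : fderiv ℝ (cut x₀ r) x = 0 := by
    by_contra hc
    exact hx (h1 (support_fderiv_subset ℝ hc))
  unfold pd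
  rw [h2]
  rfl

/-- The mass in a ball. -/
def FF {H : Type} [NormedAddCommGroup H] (χ : E3 → H) (x₀ : E3) (r : ℝ) : ℝ≥0∞ :=
  ∫⁻ x in Metric.closedBall x₀ r, ‖χ x‖ₑ ^ 2

theorem QQ_cut {H : Type} [NormedAddCommGroup H] {M : ℝ}
    (hM : ∀ x i, |fderiv ℝ bmp x (EuclideanSpace.single i (1 : ℝ))| ≤ M) (χ : E3 → H) (x₀ : E3)
    {r : ℝ} (hr : 0 < r) (hr1 : r ≤ 1) :
    QQ (cut x₀ r) χ ≤ ENNReal.ofReal ((3 * M ^ 2 + 1) / r ^ 2) * FF χ x₀ (2 * r) := by
  unfold QQ FF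
  rw [← lintegral_add_compl _
    (Metric.isClosed_closedBall (x := x₀) (ε := 2 * r)).measurableSet]
  have h0 : ∫⁻ x in (Metric.closedBall x₀ (2 * r))ᶜ, ENNReal.ofReal
      ((∑ i, pd i (cut x₀ r) x ^ 2 + cut x₀ r x ^ 2) * ‖χ x‖ ^ 2) = 0 := by
    rw [setLIntegral_congr_fun (g := fun _ => 0)
      (Metric.isClosed_closedBall (x := x₀) (ε := 2 * r)).measurableSet.compl]
    · simp
    · intro x hx
      simp only [cut_out x₀ hr x hx, cut_pd_out x₀ hr _ x hx]
      simp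
  rw [h0, add_zero, ← lintegral_const_mul' _ _ ENNReal.ofReal_ne_top]
  refine lintegral_mono fun x => ?_
  rw [enorm_sq, ← ENNReal.ofReal_mul (by positivity)]
  apply ENNReal.ofReal_le_ofReal
  gcongr
  have h1 : ∀ i, pd i (cut x₀ r) x ^ 2 ≤ M ^ 2 / r ^ 2 := by
    intro i
    rw [cut_pd, mul_pow, inv_pow, ← div_eq_inv_mul]
    refine div_le_div_of_nonneg_right ?_ (by positivity)
    rw [← sq_abs]
    exact pow_le_pow_left₀ (abs_nonneg _) (hM _ i) 2
  have h2 : cut x₀ r x ^ 2 ≤ 1 / r ^ 2 := by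
    have : cut x₀ r x ^ 2 ≤ 1 := by
      have h3 : 0 ≤ cut x₀ r x := bmp.nonneg
      have h4 : cut x₀ r x ≤ 1 := bmp.le_one
      nlinarith
    refine this.trans ?_
    rw [le_div_iff₀ (by positivity)]
    nlinarith
  calc ∑ i, pd i (cut x₀ r) x ^ 2 + cut x₀ r x ^ 2 ≤ ∑ _i : Fin 3, M ^ 2 / r ^ 2 + 1 / r ^ 2 := by
        gcongr with i
        exact h1 i
    _ = (3 * M ^ 2 + 1) / r ^ 2 := by
        simp
        ring

/-- Iteration. -/
theorem iter (F : ℝ → ℝ≥0∞) (Φ : ℝ) (hΦ : 0 ≤ Φ) (hF : ∀ r, F r ≤ ENNReal.ofReal Φ)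
    (h : ∀ η : ℝ, 0 < η → ∃ ρ : ℝ, 0 < ρ ∧ ∀ r, 0 < r → r ≤ ρ → F r ≤ ENNReal.ofReal η * F (2 * r))
    (k : ℕ) : ∃ C : ℝ, 0 ≤ C ∧ ∀ r, 0 < r → F r ≤ ENNReal.ofReal (C * r ^ k) := by
  obtain ⟨ρ, hρ, h1⟩ := h ((1 / 2) ^ k) (by positivity)
  refine ⟨Φ / ρ ^ k, by positivity, ?_⟩
  have key : ∀ n : ℕ, ∀ r, 0 < r → ρ / 2 ^ n < r → F r ≤ ENNReal.ofReal (Φ / ρ ^ k * r ^ k) := by
    have base : ∀ r, ρ < r → F r ≤ ENNReal.ofReal (Φ / ρ ^ k * r ^ k) := by
      intro r hr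
      refine (hF r).trans (ENNReal.ofReal_le_ofReal ?_)
      rw [div_mul_eq_mul_div, le_div_iff₀ (by positivity)]
      gcongr
    intro n
    induction n with
    | zero =>
      intro r _ hr
      exact base r (by simpa using hr)
    | succ n ih =>
      intro r hr0 hr
      by_cases hc : ρ < r
      · exact base r hc
      · push Not at hc
        refine (h1 r hr0 hc).trans ?_
        have h2 := ih (2 * r) (by positivity) (by
          rw [pow_succ] at hr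
          rw [div_lt_iff₀ (by positivity)] at hr ⊢
          linarith)
        calc ENNReal.ofReal ((1 / 2) ^ k) * F (2 * r)
            ≤ ENNReal.ofReal ((1 / 2) ^ k) * ENNReal.ofReal (Φ / ρ ^ k * (2 * r) ^ k) := by gcongr
          _ = ENNReal.ofReal (Φ / ρ ^ k * r ^ k) := by
              rw [← ENNReal.ofReal_mul (by positivity)]
              congr 1
              rw [mul_pow, div_pow, one_pow]
              field_simp
  intro r hr
  obtain ⟨n, hn⟩ := exists_nat_gt (ρ / r)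
  refine key n r hr ?_
  rw [div_lt_iff₀ (by positivity)]
  rw [div_lt_iff₀ hr] at hn
  have : (n : ℝ) ≤ 2 ^ n := by exact_mod_cast Nat.lt_two_pow_self.le
  nlinarith

/-- Hölder in a ball. -/
theorem hoelder_ball {H : Type} [NormedAddCommGroup H] {χ : E3 → H} (hχ : MemLp χ 2 volume)
    {B : Set E3} (hB : MeasurableSet B) (hz : ∀ᵐ x, x ∈ B → χ x = 0) (x₀ : E3) (r : ℝ) :
    FF χ x₀ r ≤ volume (Metric.closedBall x₀ r \ B) ^ (2 / 3 : ℝ) *
      (∫⁻ x in Metric.closedBall x₀ r, ‖χ x‖ₑ ^ (6 : ℝ)) ^ (1 / 3 : ℝ) := by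
  have hcb : MeasurableSet (Metric.closedBall x₀ r) := Metric.isClosed_closedBall.measurableSet
  have h1 : FF χ x₀ r = ∫⁻ x in Metric.closedBall x₀ r \ B, 1 * ‖χ x‖ₑ ^ 2 := by
    unfold FF
    rw [← lintegral_inter_add_sdiff _ (Metric.closedBall x₀ r) hB]
    have : ∫⁻ x in Metric.closedBall x₀ r ∩ B, ‖χ x‖ₑ ^ 2 = 0 := by
      rw [lintegral_congr_ae (g := fun _ => 0)]
      · simp
      · filter_upwards [ae_restrict_of_ae hz, ae_restrict_mem (hcb.inter hB)] with x h1 h2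
        rw [h1 h2.2]
        simp
    rw [this, zero_add]
    simp
  rw [h1]
  refine (ENNReal.lintegral_mul_le_Lp_mul_Lq (volume.restrict (Metric.closedBall x₀ r \ B))
    (p := 3 / 2) (q := 3) (by constructor <;> norm_num)
    (f := fun _ => 1) (g := fun x => ‖χ x‖ₑ ^ 2) aemeasurable_const
    ((hχ.aestronglyMeasurable.enorm.pow_const 2).restrict)).trans ?_
  have e1 : (∫⁻ _x in Metric.closedBall x₀ r \ B, (1 : ℝ≥0∞) ^ (3 / 2 : ℝ)) ^ (1 / (3 / 2) : ℝ) =
      volume (Metric.closedBall x₀ r \ B) ^ (2 / 3 : ℝ) := by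
    rw [ENNReal.one_rpow, lintegral_const, Measure.restrict_apply_univ, one_mul]
    norm_num
  have e2 : ∫⁻ x in Metric.closedBall x₀ r \ B, (‖χ x‖ₑ ^ 2) ^ (3 : ℝ) ≤
      ∫⁻ x in Metric.closedBall x₀ r, ‖χ x‖ₑ ^ (6 : ℝ) := by
    refine (lintegral_mono_set sdiff_subset).trans (le_of_eq ?_)
    refine lintegral_congr fun x => ?_
    rw [← ENNReal.rpow_natCast, ← ENNReal.rpow_mul]
    norm_num
  rw [e1]
  exact mul_le_mul_right (ENNReal.rpow_le_rpow e2 (by norm_num)) _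

/-- The set of density points. -/
theorem density {B : Set E3} (hB : MeasurableSet B) (h0 : volume B ≠ 0) :
    ∃ x₀ : E3, ∀ δ : ℝ, 0 < δ → ∃ ρ : ℝ, 0 < ρ ∧ ∀ r, 0 < r → r ≤ ρ →
      volume (Metric.closedBall x₀ r \ B) ≤
        ENNReal.ofReal δ * volume (Metric.closedBall x₀ r) := by
  have h1 := Besicovitch.ae_tendsto_measure_inter_div (volume : Measure E3) B
  have hne : NeBot (ae ((volume : Measure E3).restrict B)) := by
    rw [ae_neBot]
    intro hc
    exact h0 (Measure.restrict_eq_zero.1 hc)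
  obtain ⟨x₀, hx⟩ := h1.exists
  refine ⟨x₀, fun δ hδ => ?_⟩
  have h2 : ∀ᶠ r in 𝓝[>] (0 : ℝ), ENNReal.ofReal (1 - min δ 1 / 2) <
      volume (B ∩ Metric.closedBall x₀ r) / volume (Metric.closedBall x₀ r) := by
    refine hx.eventually (lt_mem_nhds ?_)
    rw [← ENNReal.ofReal_one]
    refine (ENNReal.ofReal_lt_ofReal_iff one_pos).2 ?_
    have : 0 < min δ 1 := lt_min hδ one_pos
    linarith
  rw [eventually_nhdsWithin_iff, Metric.eventually_nhds_iff] at h2
  obtain ⟨ρ, hρ, h3⟩ := h2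
  refine ⟨ρ / 2, by positivity, fun r hr hr2 => ?_⟩
  have h4 := h3 (y := r) (by rw [Real.dist_eq, sub_zero, abs_of_pos hr]; linarith) hr
  have hb0 : volume (Metric.closedBall x₀ r) ≠ 0 := (Metric.measure_closedBall_pos volume x₀ hr).ne'
  have hbt : volume (Metric.closedBall x₀ r) ≠ ∞ := measure_closedBall_lt_top.ne
  rw [ENNReal.lt_div_iff_mul_lt (Or.inl hb0) (Or.inl hbt)] at h4
  have h5 : volume (Metric.closedBall x₀ r \ B) + volume (B ∩ Metric.closedBall x₀ r) =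
      volume (Metric.closedBall x₀ r) := by
    rw [inter_comm, measure_sdiff_add_inter _ hB]
  set a := volume (Metric.closedBall x₀ r \ B)
  set b := volume (B ∩ Metric.closedBall x₀ r)
  set v := volume (Metric.closedBall x₀ r)
  have ha : a ≠ ∞ := ne_top_of_le_ne_top hbt (h5 ▸ le_self_add)
  have hb : b ≠ ∞ := ne_top_of_le_ne_top hbt (h5 ▸ le_add_self)
  have m0 : 0 < min δ 1 := lt_min hδ one_pos
  have m1 : min δ 1 ≤ 1 := min_le_right _ _
  have h6 : (1 - min δ 1 / 2) * v.toReal < b.toReal := by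
    have := (ENNReal.toReal_lt_toReal (ENNReal.mul_ne_top ENNReal.ofReal_ne_top hbt) hb).2 h4
    rwa [ENNReal.toReal_mul, ENNReal.toReal_ofReal (by linarith)] at this
  have h7 : a.toReal + b.toReal = v.toReal := by rw [← h5, ENNReal.toReal_add ha hb]
  have hv0 : 0 ≤ v.toReal := ENNReal.toReal_nonneg
  rw [← ENNReal.ofReal_toReal ha, ← ENNReal.ofReal_toReal hbt, ← ENNReal.ofReal_mul hδ.le]
  apply ENNReal.ofReal_le_ofReal
  have : min δ 1 ≤ δ := min_le_left _ _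
  nlinarith

theorem t_DENS : S_DENS := by
  intro H _ _ _ _ V A χ D hV hVs hA hχ hD hg hen B hB hB0 hz
  let _ : InnerProductSpace ℝ H := InnerProductSpace.complexToReal
  obtain ⟨x₀, hx₀⟩ := density hB hB0
  refine ⟨x₀, ?_⟩
  obtain ⟨M, hM0, hM⟩ := bmp_bound
  have hep : 0 < epsA A := by have := cS_nonneg; unfold epsA; positivity
  have hK : 0 < KA A := by have := cS_nonneg; unfold KA; positivity
  obtain ⟨r₁, hr₁, hVr⟩ := hVs (epsA A) hep
  have hVr := hVr x₀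
  -- the basic estimates
  have basic : ∀ r, 0 < r → 2 * r ≤ r₁ → r ≤ 1 →
      PP (cut x₀ r) D ≤ ENNReal.ofReal (KA A * ((3 * M ^ 2 + 1) / r ^ 2)) * FF χ x₀ (2 * r) ∧
      eLpNorm (fun x => cut x₀ r x • χ x) 6 volume ^ 2 ≤
        ENNReal.ofReal (KA A * ((3 * M ^ 2 + 1) / r ^ 2)) * FF χ x₀ (2 * r) := by
    intro r hr h2r hr1
    have hsm : (∫⁻ y in Metric.closedBall x₀ (2 * r), ENNReal.ofReal (|V y| ^ (3 / 2 : ℝ))) ^
        (2 / 3 : ℝ) ≤ ENNReal.ofReal (epsA A) := by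
      refine le_trans ?_ hVr
      refine ENNReal.rpow_le_rpow ?_ (by norm_num)
      exact lintegral_mono_set (Metric.closedBall_subset_closedBall h2r)
    have h := cacc hA hχ hD hg (cut_test x₀ hr) hV x₀ (2 * r) (cut_out x₀ hr) hsm
      (hen _ (cut_test x₀ hr))
    have hQ := QQ_cut hM χ x₀ hr hr1
    have h2 : ENNReal.ofReal (KA A) * QQ (cut x₀ r) χ ≤
        ENNReal.ofReal (KA A * ((3 * M ^ 2 + 1) / r ^ 2)) * FF χ x₀ (2 * r) := by
      rw [ENNReal.ofReal_mul hK.le, mul_assoc]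
      gcongr
    exact ⟨h.1.trans h2, h.2.trans h2⟩
  -- finiteness
  set Φ : ℝ := (eLpNorm χ 2 volume ^ 2).toReal with hΦ
  have hΦfin : eLpNorm χ 2 volume ^ 2 ≠ ∞ := ENNReal.pow_ne_top hχ.2.ne
  have hFF : ∀ r, FF χ x₀ r ≤ ENNReal.ofReal Φ := by
    intro r
    rw [hΦ, ENNReal.ofReal_toReal hΦfin, two_sq]
    exact setLIntegral_le_lintegral _ _
  -- the decay
  have hdec : ∀ η : ℝ, 0 < η → ∃ ρ : ℝ, 0 < ρ ∧ ∀ r, 0 < r → r ≤ ρ →
      FF χ x₀ r ≤ ENNReal.ofReal η * FF χ x₀ (2 * r) := by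
    intro η hη
    have hv0 : 0 < (volume (Metric.closedBall (0 : E3) 1)).toReal :=
      ENNReal.toReal_pos (Metric.measure_closedBall_pos volume _ one_pos).ne'
        measure_closedBall_lt_top.ne
    set v : ℝ := (volume (Metric.closedBall (0 : E3) 1)).toReal with hv
    set K' : ℝ := KA A * (3 * M ^ 2 + 1) with hK'
    have hK'0 : 0 < K' := by positivity
    set δ : ℝ := (η / K') ^ (3 / 2 : ℝ) / v with hδ
    have hδ0 : 0 < δ := by positivity
    obtain ⟨ρ, hρ, hρ2⟩ := hx₀ δ hδ0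
    refine ⟨min ρ (min (r₁ / 2) 1), lt_min hρ (lt_min (by positivity) one_pos), fun r hr hr2 => ?_⟩
    have a1 : r ≤ ρ := hr2.trans (min_le_left _ _)
    have a2 : r ≤ r₁ / 2 := hr2.trans ((min_le_right _ _).trans (min_le_left _ _))
    have a3 : r ≤ 1 := hr2.trans ((min_le_right _ _).trans (min_le_right _ _))
    have h1 := (basic r hr (by linarith) a3).2
    have h2 := hρ2 r hr a1
    have h3 := hoelder_ball hχ hB hz x₀ r
    have hvol : volume (Metric.closedBall x₀ r) = ENNReal.ofReal (r ^ 3 * v) := by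
      rw [Measure.addHaar_closedBall volume x₀ hr.le, ENNReal.ofReal_mul (by positivity), hv,
        ENNReal.ofReal_toReal measure_closedBall_lt_top.ne, Measure.addHaar_closedBall_eq_addHaar_ball]
      simp
    have h4 : volume (Metric.closedBall x₀ r \ B) ^ (2 / 3 : ℝ) ≤
        ENNReal.ofReal (η / K' * r ^ 2) := by
      calc volume (Metric.closedBall x₀ r \ B) ^ (2 / 3 : ℝ)
          ≤ (ENNReal.ofReal δ * ENNReal.ofReal (r ^ 3 * v)) ^ (2 / 3 : ℝ) := by
            rw [← hvol]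
            exact ENNReal.rpow_le_rpow h2 (by norm_num)
        _ = ENNReal.ofReal (η / K' * r ^ 2) := by
            rw [← ENNReal.ofReal_mul hδ0.le, ENNReal.ofReal_rpow_of_nonneg (by positivity)
              (by norm_num)]
            congr 1
            have : δ * (r ^ 3 * v) = (η / K') ^ (3 / 2 : ℝ) * r ^ 3 := by
              rw [hδ]; field_simp
            rw [this, Real.mul_rpow (by positivity) (by positivity), ← Real.rpow_mul (by positivity),
              ← Real.rpow_natCast r 3, ← Real.rpow_mul hr.le]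
            norm_num
    have h5 : (∫⁻ x in Metric.closedBall x₀ r, ‖χ x‖ₑ ^ (6 : ℝ)) ^ (1 / 3 : ℝ) ≤
        eLpNorm (fun x => cut x₀ r x • χ x) 6 volume ^ 2 := by
      have h6 : eLpNorm (fun x => cut x₀ r x • χ x) 6 volume ^ 2 =
          (∫⁻ x, ‖cut x₀ r x • χ x‖ₑ ^ (6 : ℝ)) ^ (1 / 3 : ℝ) := by
        have e6 : ((6 : ℝ≥0) : ℝ≥0∞) = 6 := by norm_num
        have h7 := eLpNorm_nnreal_pow_eq_lintegral (μ := volume)
          (f := fun x => cut x₀ r x • χ x) (p := 6) (by norm_num)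
        rw [e6, show (((6 : ℝ≥0) : ℝ≥0) : ℝ) = 6 by norm_num] at h7
        rw [← h7, ← ENNReal.rpow_mul, ← ENNReal.rpow_natCast]
        norm_num
      rw [h6]
      refine ENNReal.rpow_le_rpow ?_ (by norm_num)
      refine le_trans (le_of_eq ?_) (setLIntegral_le_lintegral (Metric.closedBall x₀ r) _)
      refine setLIntegral_congr_fun Metric.isClosed_closedBall.measurableSet fun x hx => ?_
      simp only [cut_in x₀ hr x hx, one_smul]
    refine h3.trans ?_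
    calc volume (Metric.closedBall x₀ r \ B) ^ (2 / 3 : ℝ) *
        (∫⁻ x in Metric.closedBall x₀ r, ‖χ x‖ₑ ^ (6 : ℝ)) ^ (1 / 3 : ℝ)
        ≤ ENNReal.ofReal (η / K' * r ^ 2) *
          (ENNReal.ofReal (KA A * ((3 * M ^ 2 + 1) / r ^ 2)) * FF χ x₀ (2 * r)) :=
          mul_le_mul' h4 (h5.trans h1)
      _ = ENNReal.ofReal η * FF χ x₀ (2 * r) := by
          rw [← mul_assoc, ← ENNReal.ofReal_mul (by positivity)]
          congr 2
          rw [← mul_div_assoc, ← hK']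
          field_simp
  -- conclusion
  intro k
  obtain ⟨C, hC, hCr⟩ := iter (FF χ x₀) Φ ENNReal.toReal_nonneg hFF hdec (k + 2)
  set Ψ : ℝ := (∑ i, eLpNorm (D i) 2 volume ^ 2).toReal with hΨ
  have hΨfin : ∑ i, eLpNorm (D i) 2 volume ^ 2 ≠ ∞ :=
    ENNReal.sum_ne_top.2 fun i _ => ENNReal.pow_ne_top (hD i).2.ne
  set s : ℝ := min (r₁ / 2) 1 with hs
  have hs0 : 0 < s := lt_min (by positivity) one_pos
  have hΨ0 : 0 ≤ Ψ := ENNReal.toReal_nonneg
  refine ⟨C + (KA A * (3 * M ^ 2 + 1) * C * 2 ^ (k + 2) + Ψ / s ^ k), fun r hr hr1 => ?_⟩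
  have hmD : AEMeasurable (fun x => ENNReal.ofReal (∑ i, ‖D i x‖ ^ 2)) volume := by
    refine ENNReal.measurable_ofReal.comp_aemeasurable ?_
    exact Finset.aemeasurable_fun_sum _ fun i _ =>
      (hD i).aestronglyMeasurable.norm.aemeasurable.pow_const 2
  have e1 : ∫⁻ x in Metric.closedBall x₀ r, ENNReal.ofReal (‖χ x‖ ^ 2 + ∑ i, ‖D i x‖ ^ 2) =
      FF χ x₀ r + ∫⁻ x in Metric.closedBall x₀ r, ENNReal.ofReal (∑ i, ‖D i x‖ ^ 2) := by
    unfold FF
    rw [← lintegral_add_right' _ hmD.restrict]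
    refine lintegral_congr fun x => ?_
    rw [enorm_sq, ← ENNReal.ofReal_add (by positivity) (by positivity)]
  have e2 : FF χ x₀ r ≤ ENNReal.ofReal (C * r ^ k) := by
    refine (hCr r hr).trans (ENNReal.ofReal_le_ofReal ?_)
    have : r ^ (k + 2) ≤ r ^ k := pow_le_pow_of_le_one hr.le hr1 (by omega)
    gcongr
  have e3 : ∫⁻ x in Metric.closedBall x₀ r, ENNReal.ofReal (∑ i, ‖D i x‖ ^ 2) ≤
      ENNReal.ofReal ((KA A * (3 * M ^ 2 + 1) * C * 2 ^ (k + 2) + Ψ / s ^ k) * r ^ k) := by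
    by_cases hc : r ≤ s
    · have h1 := (basic r hr (by have := min_le_left (r₁ / 2) 1; linarith)
        (by have := min_le_right (r₁ / 2) 1; linarith)).1
      calc ∫⁻ x in Metric.closedBall x₀ r, ENNReal.ofReal (∑ i, ‖D i x‖ ^ 2)
          ≤ PP (cut x₀ r) D := by
            refine le_trans (le_of_eq ?_) (setLIntegral_le_lintegral (Metric.closedBall x₀ r) _)
            refine setLIntegral_congr_fun Metric.isClosed_closedBall.measurableSet fun x hx => ?_
            simp only [cut_in x₀ hr x hx, one_pow, one_mul]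
        _ ≤ ENNReal.ofReal (KA A * ((3 * M ^ 2 + 1) / r ^ 2)) *
            ENNReal.ofReal (C * (2 * r) ^ (k + 2)) := h1.trans (by gcongr; exact hCr _ (by positivity))
        _ = ENNReal.ofReal (KA A * (3 * M ^ 2 + 1) * C * 2 ^ (k + 2) * r ^ k) := by
            rw [← ENNReal.ofReal_mul (by positivity)]
            congr 1
            rw [mul_pow, pow_add r k 2]
            field_simp
        _ ≤ _ := by
            apply ENNReal.ofReal_le_ofReal
            have : 0 ≤ Ψ / s ^ k * r ^ k := by positivity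
            nlinarith
    · push Not at hc
      calc ∫⁻ x in Metric.closedBall x₀ r, ENNReal.ofReal (∑ i, ‖D i x‖ ^ 2)
          ≤ ∫⁻ x, ENNReal.ofReal (∑ i, ‖D i x‖ ^ 2) := setLIntegral_le_lintegral _ _
        _ = ENNReal.ofReal Ψ := by
            rw [hΨ, ENNReal.ofReal_toReal hΨfin]
            simp_rw [two_sq]
            rw [← lintegral_finsetSum' _ fun i _ =>
              ((hD i).aestronglyMeasurable.enorm.pow_const 2)]
            refine lintegral_congr fun x => ?_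
            rw [ENNReal.ofReal_sum_of_nonneg (fun i _ => by positivity)]
            exact Finset.sum_congr rfl fun i _ => (enorm_sq _).symm
        _ ≤ _ := by
            apply ENNReal.ofReal_le_ofReal
            have h1 : Ψ ≤ Ψ / s ^ k * r ^ k := by
              rw [div_mul_eq_mul_div, le_div_iff₀ (by positivity)]
              gcongr
            have : 0 ≤ KA A * (3 * M ^ 2 + 1) * C * 2 ^ (k + 2) * r ^ k := by positivity
            nlinarith
  rw [e1]
  refine (add_le_add e2 e3).trans (le_of_eq ?_)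
  rw [← ENNReal.ofReal_add (by positivity) (by positivity)]
  congr 1
  ring

end Pool.Agent.H200.HK
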