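import Pool.Agent.H998.HK.Spec2

/-!
# Sobolev inequality for Hilbert space valued functions on `ℝ³` with weak gradients
-/

set_option autoImplicit false

noncomputable section

namespace Pool.Agent.H200.HK

open MeasureTheory Filter Topology Set Function
open Pool.Agent.H998.HK
open scoped ENNReal NNReal RealInnerProductSpace Convolution

variable {F : Type} [NormedAddCommGroup F] [InnerProductSpace ℝ F]

/-- The Sobolev constant. -/
def CS : ℝ≥0 := eLpNormLESNormFDerivOfEqInnerConst (volume : Measure E3) ((2 : ℝ≥0) : ℝ)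

theorem fderiv_norm_le (L : E3 →L[ℝ] F) : ‖L‖ ≤ ∑ i, ‖L (EuclideanSpace.single i (1 : ℝ))‖ := by
  refine L.opNorm_le_bound (Finset.sum_nonneg fun _ _ => norm_nonneg _) fun v => ?_
  have hv : v = ∑ i, v i • EuclideanSpace.single i (1 : ℝ) := by
    ext j
    simp [Finset.sum_apply, Pi.single_apply]
  calc ‖L v‖ = ‖∑ i, v i • L (EuclideanSpace.single i (1 : ℝ))‖ := by
        conv_lhs => rw [hv]
        rw [map_sum]
        simp only [map_smul]
    _ ≤ ∑ i, ‖v i • L (EuclideanSpace.single i (1 : ℝ))‖ := norm_sum_le _ _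
    _ ≤ ∑ i, ‖v‖ * ‖L (EuclideanSpace.single i (1 : ℝ))‖ := by
        refine Finset.sum_le_sum fun i _ => ?_
        rw [norm_smul]
        gcongr
        exact PiLp.norm_apply_le v i
    _ = (∑ i, ‖L (EuclideanSpace.single i (1 : ℝ))‖) * ‖v‖ := by
        rw [Finset.sum_mul]
        exact Finset.sum_congr rfl fun _ _ => mul_comm _ _

/-- Sobolev inequality, smooth case. -/
theorem sob_smooth {u : E3 → F} (hu : ContDiff ℝ 1 u) (hc : HasCompactSupport u) :
    eLpNorm u 6 volume ≤ CS * ∑ i, eLpNorm (fun x => fderiv ℝ u x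
      (EuclideanSpace.single i (1 : ℝ))) 2 volume := by
  have h1 := eLpNorm_le_eLpNorm_fderiv_of_eq_inner (volume : Measure E3) hu hc (p := 2) (p' := 6)
    (by norm_num) (by simp) (by simp; norm_num)
  have h2 : eLpNorm (fderiv ℝ u) 2 volume ≤ ∑ i, eLpNorm (fun x => fderiv ℝ u x
      (EuclideanSpace.single i (1 : ℝ))) 2 volume := by
    have hcont : Continuous (fderiv ℝ u) := hu.continuous_fderiv one_ne_zero
    calc eLpNorm (fderiv ℝ u) 2 volume
        ≤ eLpNorm (fun x => ∑ i, ‖fderiv ℝ u x (EuclideanSpace.single i (1 : ℝ))‖) 2 volume := by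
          refine eLpNorm_mono_real fun x => fderiv_norm_le _
      _ ≤ ∑ i, eLpNorm (fun x => ‖fderiv ℝ u x (EuclideanSpace.single i (1 : ℝ))‖) 2 volume := by
          have := eLpNorm_sum_le (μ := (volume : Measure E3)) (p := 2) (s := Finset.univ)
            (f := fun (i : Fin 3) (x : E3) => ‖fderiv ℝ u x (EuclideanSpace.single i (1 : ℝ))‖)
            (fun i _ => (hcont.clm_apply continuous_const).norm.aestronglyMeasurable)
            (by norm_num)
          refine le_trans (le_of_eq ?_) this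
          congr 1
      _ = _ := by simp only [eLpNorm_norm]
  refine h1.trans ?_
  exact mul_le_mul_right h2 _

/-- The square of the `L²` norm. -/
theorem two_sq {X G : Type} [MeasurableSpace X] [NormedAddCommGroup G] (μ : Measure X)
    (f : X → G) : eLpNorm f 2 μ ^ 2 = ∫⁻ x, ‖f x‖ₑ ^ 2 ∂μ := by
  have h := eLpNorm_nnreal_pow_eq_lintegral (μ := μ) (f := f) (p := 2) (by norm_num)
  simpa using h

/-- Cauchy-Schwarz with a weight. -/
theorem cs_weight {X : Type} [MeasurableSpace X] (μ : Measure X) {K G : X → ℝ≥0∞}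
    (hK : AEMeasurable K μ) (hG : AEMeasurable G μ) :
    (∫⁻ x, K x * G x ∂μ) ^ 2 ≤ (∫⁻ x, K x ∂μ) * ∫⁻ x, K x * G x ^ 2 ∂μ := by
  have h := ENNReal.lintegral_mul_le_Lp_mul_Lq μ (p := 2) (q := 2)
    (Real.HolderConjugate.two_two) (f := fun x => K x ^ (1 / 2 : ℝ))
    (g := fun x => K x ^ (1 / 2 : ℝ) * G x) (hK.pow_const _) ((hK.pow_const _).mul hG)
  have e1 : ∀ x, K x ^ (1 / 2 : ℝ) * K x ^ (1 / 2 : ℝ) = K x := by
    intro x
    rw [← ENNReal.rpow_add_of_nonneg _ _ (by norm_num) (by norm_num)]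
    norm_num
  have e2 : ∀ x, (K x ^ (1 / 2 : ℝ)) ^ (2 : ℝ) = K x := by
    intro x
    rw [← ENNReal.rpow_mul]
    norm_num
  have h1 : ∫⁻ x, ((fun x => K x ^ (1 / 2 : ℝ)) * fun x => K x ^ (1 / 2 : ℝ) * G x) x ∂μ =
      ∫⁻ x, K x * G x ∂μ := by
    refine lintegral_congr fun x => ?_
    simp only [Pi.mul_apply]
    rw [← mul_assoc, e1]
  have h2 : ∫⁻ x, (K x ^ (1 / 2 : ℝ)) ^ (2 : ℝ) ∂μ = ∫⁻ x, K x ∂μ :=
    lintegral_congr fun x => e2 x
  have h3 : ∫⁻ x, (K x ^ (1 / 2 : ℝ) * G x) ^ (2 : ℝ) ∂μ = ∫⁻ x, K x * G x ^ 2 ∂μ := by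
    refine lintegral_congr fun x => ?_
    rw [ENNReal.mul_rpow_of_nonneg _ _ (by norm_num), e2]
    norm_num
  rw [h1, h2, h3] at h
  calc (∫⁻ x, K x * G x ∂μ) ^ 2 ≤
      ((∫⁻ x, K x ∂μ) ^ (1 / 2 : ℝ) * (∫⁻ x, K x * G x ^ 2 ∂μ) ^ (1 / 2 : ℝ)) ^ 2 := by gcongr
    _ = (∫⁻ x, K x ∂μ) * ∫⁻ x, K x * G x ^ 2 ∂μ := by
        rw [mul_pow, ← ENNReal.rpow_natCast, ← ENNReal.rpow_natCast, ← ENNReal.rpow_mul,
          ← ENNReal.rpow_mul]
        norm_num

/-- Young's inequality for a mollifier. -/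
theorem young (ρ : ContDiffBump (0 : E3)) {D : E3 → F} (hD : MemLp D 2 volume) :
    eLpNorm ((ρ.normed volume) ⋆[ContinuousLinearMap.lsmul ℝ ℝ, volume] D) 2 volume ≤
      eLpNorm D 2 volume := by
  set k : E3 → ℝ := ρ.normed volume with hk
  have hk0 : ∀ t, 0 ≤ k t := ρ.nonneg_normed
  have hkm : Measurable fun t => ENNReal.ofReal (k t) :=
    ENNReal.measurable_ofReal.comp ρ.continuous_normed.measurable
  have hk1 : ∫⁻ t, ENNReal.ofReal (k t) = 1 := by
    rw [← ofReal_integral_eq_lintegral_ofReal ρ.integrable_normed (ae_of_all _ hk0),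
      ρ.integral_normed, ENNReal.ofReal_one]
  have hDm : AEMeasurable (fun y => ‖D y‖ₑ ^ 2) volume := (hD.aestronglyMeasurable.enorm).pow_const _
  have hpt : ∀ x, ‖(k ⋆[ContinuousLinearMap.lsmul ℝ ℝ, volume] D) x‖ₑ ^ 2 ≤
      ∫⁻ t, ENNReal.ofReal (k t) * ‖D (x - t)‖ₑ ^ 2 := by
    intro x
    have hDx : AEMeasurable (fun t => ‖D (x - t)‖ₑ) volume :=
      (hD.aestronglyMeasurable.comp_measurePreserving
        (Measure.measurePreserving_sub_left volume x)).enorm
    calc ‖(k ⋆[ContinuousLinearMap.lsmul ℝ ℝ, volume] D) x‖ₑ ^ 2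
        ≤ (∫⁻ t, ENNReal.ofReal (k t) * ‖D (x - t)‖ₑ) ^ 2 := by
          gcongr
          unfold convolution
          refine (enorm_integral_le_lintegral_enorm _).trans (le_of_eq ?_)
          refine lintegral_congr fun t => ?_
          rw [ContinuousLinearMap.lsmul_apply, enorm_smul, Real.enorm_eq_ofReal (hk0 t)]
      _ ≤ (∫⁻ t, ENNReal.ofReal (k t)) * ∫⁻ t, ENNReal.ofReal (k t) * ‖D (x - t)‖ₑ ^ 2 :=
          cs_weight volume hkm.aemeasurable hDx
      _ = _ := by rw [hk1, one_mul]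
  have hmain : eLpNorm (k ⋆[ContinuousLinearMap.lsmul ℝ ℝ, volume] D) 2 volume ^ 2 ≤
      eLpNorm D 2 volume ^ 2 := by
    rw [two_sq, two_sq]
    calc ∫⁻ x, ‖(k ⋆[ContinuousLinearMap.lsmul ℝ ℝ, volume] D) x‖ₑ ^ 2
        ≤ ∫⁻ x, ∫⁻ t, ENNReal.ofReal (k t) * ‖D (x - t)‖ₑ ^ 2 := lintegral_mono hpt
      _ = ∫⁻ t, ∫⁻ x, ENNReal.ofReal (k t) * ‖D (x - t)‖ₑ ^ 2 := by
          refine lintegral_lintegral_swap ?_
          refine (hkm.comp measurable_snd).aemeasurable.mul ?_
          exact ((hD.aestronglyMeasurable.comp_quasiMeasurePreserving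
            (quasiMeasurePreserving_sub_of_right_invariant (volume : Measure E3)
              (volume : Measure E3))).enorm).pow_const _
      _ = ∫⁻ t, ENNReal.ofReal (k t) * ∫⁻ x, ‖D x‖ₑ ^ 2 := by
          refine lintegral_congr fun t => ?_
          rw [lintegral_const_mul'' _ (by
            exact ((hD.aestronglyMeasurable.comp_measurePreserving
              (measurePreserving_sub_right volume t)).enorm).pow_const _)]
          congr 1
          exact lintegral_sub_right_eq_self (fun x => ‖D x‖ₑ ^ 2) t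
      _ = ∫⁻ x, ‖D x‖ₑ ^ 2 := by
          rw [lintegral_mul_const _ hkm, hk1, one_mul]
  exact (ENNReal.pow_le_pow_left_iff (by norm_num)).1 hmain

/-- The derivative of a mollification. -/
theorem moll_deriv (ρ : ContDiffBump (0 : E3)) {u : E3 → F} {D : Fin 3 → E3 → F}
    (hu : LocallyIntegrable u volume) (hg : WeakGrad u D) (i : Fin 3) (x : E3) :
    fderiv ℝ ((ρ.normed volume) ⋆[ContinuousLinearMap.lsmul ℝ ℝ, volume] u) x
      (EuclideanSpace.single i (1 : ℝ)) =
      ((ρ.normed volume) ⋆[ContinuousLinearMap.lsmul ℝ ℝ, volume] D i) x := by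
  set k : E3 → ℝ := ρ.normed volume with hk
  set L : ℝ →L[ℝ] F →L[ℝ] F := ContinuousLinearMap.lsmul ℝ ℝ with hL
  have hkc : HasCompactSupport k := ρ.hasCompactSupport_normed
  have hks : ContDiff ℝ ((⊤ : ℕ∞) : WithTop ℕ∞) k := ρ.contDiff_normed
  have hk1 : ContDiff ℝ 1 k := hks.of_le (by exact_mod_cast le_top)
  have hd := (hkc.hasFDerivAt_convolution_left L hk1 hu x).fderiv
  rw [hd]
  have hex : ConvolutionExists (fderiv ℝ k) u (L.precompL E3) volume :=
    (hkc.fderiv ℝ).convolutionExists_left _ (hk1.continuous_fderiv one_ne_zero) hu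
  have hki : ∀ y, HasFDerivAt k (fderiv ℝ k y) y := fun y =>
    (hk1.differentiable one_ne_zero y).hasFDerivAt
  unfold convolution
  rw [ContinuousLinearMap.integral_apply (hex x)]
  have h1 : ∫ t, ((L.precompL E3) (fderiv ℝ k t) (u (x - t))) (EuclideanSpace.single i (1 : ℝ)) =
      ∫ t, fderiv ℝ k t (EuclideanSpace.single i (1 : ℝ)) • u (x - t) := by
    refine integral_congr_ae (ae_of_all _ fun t => ?_)
    simp [hL]
  have h2 : ∫ t, fderiv ℝ k t (EuclideanSpace.single i (1 : ℝ)) • u (x - t) =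
      ∫ y, fderiv ℝ k (x - y) (EuclideanSpace.single i (1 : ℝ)) • u y := by
    rw [← integral_sub_left_eq_self
      (fun t => fderiv ℝ k t (EuclideanSpace.single i (1 : ℝ)) • u (x - t)) volume x]
    simp
  have hφ : Test (fun y => k (x - y)) := by
    refine ⟨hks.comp (contDiff_const.sub contDiff_id), ?_⟩
    exact hkc.comp_homeomorph (Homeomorph.subLeft x)
  have h3 := hg i _ hφ
  have h4 : ∀ y, pd i (fun y => k (x - y)) y =
      -fderiv ℝ k (x - y) (EuclideanSpace.single i (1 : ℝ)) := by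
    intro y
    have := (hki (x - y)).comp y ((hasFDerivAt_const x y).sub (hasFDerivAt_id y))
    unfold pd
    have h5 := this.fderiv
    simp only [zero_sub] at h5
    rw [show (fun y => k (x - y)) = k ∘ (HSub.hSub x) from rfl, h5]
    simp
  simp only [h4, neg_smul, integral_neg, neg_inj] at h3
  rw [h1, h2, h3]
  rw [← integral_sub_left_eq_self (fun t => L (k t) (D i (x - t))) volume x]
  simp [hL]

/-- Sobolev inequality for functions with a weak gradient. -/
theorem sob_weak [CompleteSpace F] {u : E3 → F} {D : Fin 3 → E3 → F} (hu : MemLp u 2 volume)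
    (hD : ∀ i, MemLp (D i) 2 volume) (hg : WeakGrad u D) (hc : HasCompactSupport u) :
    eLpNorm u 6 volume ≤ CS * ∑ i, eLpNorm (D i) 2 volume := by
  have hul : LocallyIntegrable u volume := hu.locallyIntegrable (by norm_num)
  let φ : ℕ → ContDiffBump (0 : E3) := fun n =>
    { rIn := 1 / ((n : ℝ) + 1) / 2
      rOut := 1 / ((n : ℝ) + 1)
      rIn_pos := by positivity
      rIn_lt_rOut := by
        have : (0 : ℝ) < 1 / ((n : ℝ) + 1) := by positivity
        linarith }
  have hφ : Tendsto (fun n => (φ n).rOut) atTop (𝓝 0) := tendsto_one_div_add_atTop_nhds_zero_nat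
  have hlim := ContDiffBump.ae_convolution_tendsto_right_of_locallyIntegrable (μ := volume)
    (φ := φ) (K := 2) hφ (Eventually.of_forall fun n => by
      show 1 / ((n : ℝ) + 1) ≤ 2 * (1 / ((n : ℝ) + 1) / 2)
      linarith) hul
  have hsm : ∀ n, ContDiff ℝ 1
      (((φ n).normed volume) ⋆[ContinuousLinearMap.lsmul ℝ ℝ, volume] u) := fun n =>
    (φ n).hasCompactSupport_normed.contDiff_convolution_left _
      (((φ n).contDiff_normed (n := 1))) hul
  have hcs : ∀ n, HasCompactSupport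
      (((φ n).normed volume) ⋆[ContinuousLinearMap.lsmul ℝ ℝ, volume] u) := fun n =>
    (φ n).hasCompactSupport_normed.convolution _ hc
  refine (Lp.eLpNorm_lim_le_liminf_eLpNorm (fun n => (hsm n).continuous.aestronglyMeasurable) u
    hlim).trans ?_
  refine liminf_le_of_le (by isBoundedDefault) (fun b hb => ?_)
  obtain ⟨n, hn⟩ := hb.exists
  refine hn.trans ((sob_smooth (hsm n) (hcs n)).trans ?_)
  refine mul_le_mul_right (Finset.sum_le_sum fun i _ => ?_) _
  have : (fun x => fderiv ℝ (((φ n).normed volume) ⋆[ContinuousLinearMap.lsmul ℝ ℝ, volume] u) x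
      (EuclideanSpace.single i (1 : ℝ))) =
      (((φ n).normed volume) ⋆[ContinuousLinearMap.lsmul ℝ ℝ, volume] D i) := by
    funext x
    exact moll_deriv (φ n) hul hg i x
  rw [this]
  exact young (φ n) (hD i)

end Pool.Agent.H200.HK
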